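import Pool.Agent.Lib.MP_42948a_nt.TF.E2
import Pool.Agent.Lib.MP_42948a_nt.TF.BR

/-!
# Exactly three primes `≤ d^(1+ε)`, every modulus: the statements of the blocks
-/

namespace Pool.Agent.Lib.MP_42948a_nt.TP

open Finset Pool.Agent.Lib.MP_42948a_nt.OA Pool.Agent.Lib.MP_42948a_nt.TQ Pool.Agent.Lib.MP_42948a_nt.PS Pool.Agent.Lib.MP_42948a_nt.TF
open scoped Pointwise

/-- Selberg's upper bound for the primes in a window, smoothed by the kernel of a bounded set of characters, Burgess exponent `1/3` -/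
def Sharp3 : Prop := ∀ κ u w : ℝ, 0 < κ → κ ≤ 1 / 100 → 1 ≤ u → 0 < w → u + w ≤ 5 / 4 → ∀ B : ℕ, ∃ d0 : ℕ, ∀ d : ℕ, d0 ≤ d → ∀ [NeZero d],
  ∀ S : Finset (DirichletCharacter ℂ d), S.Nonempty → S.card ≤ B → ∀ x : (ZMod d)ˣ,
    sm (kr S) (PW d u (u + w)) x ≤ (1 + κ) * (2 * w / (u - 1 / 3 - κ))

open Classical in
/-- Selberg's upper bound for the primes in a window and in a coset of a subgroup of bounded index, Burgess exponent `1/4` -/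
def Sharp4 : Prop := ∀ N0 : ℕ, ∀ κ u w : ℝ, 0 < κ → κ ≤ 1 / 100 → 1 ≤ u → 0 < w → u + w ≤ 5 / 4 → ∃ d0 : ℕ, ∀ d : ℕ, d0 ≤ d → ∀ [NeZero d],
  ∀ H : Subgroup (ZMod d)ˣ, H.index ≤ N0 → ∀ z : (ZMod d)ˣ ⧸ H,
    (H.index : ℝ) * ∑ p ∈ (PW d u (u + w)).filter (fun p : ℕ => ((ucl d p : (ZMod d)ˣ) : (ZMod d)ˣ ⧸ H) = z), 1 / (p : ℝ) ≤
      (1 + κ) * (2 * w / (u - 1 / 4 - κ))

open Classical in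
/-- a nonprincipal character of bounded order does not have positive real part at nearly all primes of `(d^s, d]` -/
def Pos : Prop := ∀ m : ℕ, 1 ≤ m → ∃ s0 : ℝ, 0 < s0 ∧ ∀ s : ℝ, 0 < s → s ≤ s0 → ∃ σ : ℝ, 0 < σ ∧ ∃ d0 : ℕ, ∀ d : ℕ, d0 ≤ d → ∀ [NeZero d],
  ∀ χ : DirichletCharacter ℂ d, χ ≠ 1 → χ ^ m = 1 →
    σ ≤ ∑ p ∈ (PW d s 1).filter (fun p : ℕ => (χ (p : ZMod d)).re < 3 / 10), 1 / (p : ℝ)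

open Classical in
/-- the end of the proof, in the quotient by a subgroup of bounded index -/
def Endgame : Prop := ∀ ε0 : ℝ, 0 < ε0 → ε0 ≤ 1 / 1000 → ∀ N0 : ℕ, ∃ α0 : ℝ, 0 < α0 ∧ ∀ α : ℝ, 0 < α → α ≤ α0 → ∃ κ : ℝ, 0 < κ ∧
  ∃ d0 : ℕ, ∀ d : ℕ, d0 ≤ d → ∀ [NeZero d], ∀ (H : Subgroup (ZMod d)ˣ) (M : Finset ((ZMod d)ˣ ⧸ H)) (c : (ZMod d)ˣ),
    H.index ≤ N0 → 3 * M.card = H.index + 1 → (M * M).card = 2 * M.card - 1 →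
    (∀ a ∈ M, ∀ b ∈ M, ∀ e ∈ M, a * b * e ≠ (c : (ZMod d)ˣ ⧸ H)) →
    ∑ p ∈ (PW d α (1 + 2 * ε0)).filter (fun p : ℕ => ((ucl d p : (ZMod d)ˣ) : (ZMod d)ˣ ⧸ H) ∉ M), 1 / (p : ℝ) ≤ κ →
    ∃ q m1 m2 : ℕ, q.Prime ∧ m1.Prime ∧ m2.Prime ∧ ⌊(d : ℝ) ^ α⌋₊ < q ∧ ⌊(d : ℝ) ^ α⌋₊ < m1 ∧ ⌊(d : ℝ) ^ α⌋₊ < m2 ∧
      (q : ℝ) ≤ (d : ℝ) ^ (1 + 2 * ε0) ∧ (m1 : ℝ) ≤ (d : ℝ) ^ (1 + 2 * ε0) ∧ (m2 : ℝ) ≤ (d : ℝ) ^ (1 + 2 * ε0) ∧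
      ((q * m1 * m2 : ℕ) : ZMod d) = (c : ZMod d)

end Pool.Agent.Lib.MP_42948a_nt.TP
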