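import Pool.Agent.Lib.MP_42948a_nt.TF.A1
import Mathlib.GroupTheory.Index

/-!
# Two nearly full cosets
-/

namespace Pool.Agent.Lib.MP_42948a_nt.TP

open Finset Pool.Agent.Lib.MP_42948a_nt.TF

open Classical in
/-- if `f` has mass `≥ 2/3` on the cosets `a` and `b`, the convolution is large on `a b` -/
theorem full {d : ℕ} [NeZero d] (F : (ZMod d)ˣ → ℝ) (Mx : ℝ) (hM : 0 < Mx) (F0 : ∀ x, 0 ≤ F x) (F1 : ∀ x, F x ≤ Mx)
    (H : Subgroup (ZMod d)ˣ) (a b : (ZMod d)ˣ ⧸ H) (g : (ZMod d)ˣ) (hab : a * b = (g : (ZMod d)ˣ ⧸ H))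
    (ha : 2 / 3 * (Nat.card H : ℝ) ≤ ∑ x ∈ univ.filter (fun x : (ZMod d)ˣ => (x : (ZMod d)ˣ ⧸ H) = a), F x / Mx)
    (hb : 2 / 3 * (Nat.card H : ℝ) ≤ ∑ x ∈ univ.filter (fun x : (ZMod d)ˣ => (x : (ZMod d)ˣ ⧸ H) = b), F x / Mx) :
    Mx ^ 2 / (3 * (H.index : ℝ)) ≤ cv F F g := by
  obtain ⟨A, hA⟩ : ∃ A : Finset (ZMod d)ˣ, A = univ.filter (fun x : (ZMod d)ˣ => (x : (ZMod d)ˣ ⧸ H) = a) := ⟨_, rfl⟩
  obtain ⟨Bs, hB⟩ : ∃ Bs : Finset (ZMod d)ˣ, Bs = univ.filter (fun x : (ZMod d)ˣ => (x : (ZMod d)ˣ ⧸ H) = b) := ⟨_, rfl⟩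
  rw [← hA] at ha
  rw [← hB] at hb
  have hmA : ∀ x, x ∈ A ↔ (x : (ZMod d)ˣ ⧸ H) = a := fun x => by
    rw [hA, mem_filter]
    exact ⟨fun h => h.2, fun h => ⟨mem_univ _, h⟩⟩
  have hmB : ∀ x, x ∈ Bs ↔ (x : (ZMod d)ˣ ⧸ H) = b := fun x => by
    rw [hB, mem_filter]
    exact ⟨fun h => h.2, fun h => ⟨mem_univ _, h⟩⟩
  -- the map `x ↦ g / x`
  have hmap : ∀ x, x ∈ A ↔ g * x⁻¹ ∈ Bs := by
    intro x
    rw [hmA, hmB, QuotientGroup.mk_mul, QuotientGroup.mk_inv, ← hab]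
    constructor
    · intro h
      rw [h, mul_comm a b, mul_inv_cancel_right]
    · intro h
      have h1 : a * b = b * (x : (ZMod d)ˣ ⧸ H) := by
        rw [← h, inv_mul_cancel_right, h]
      have h2 : b * a = b * (x : (ZMod d)ˣ ⧸ H) := by rw [mul_comm b a, h1]
      rw [← inv_mul_cancel_left b (x : (ZMod d)ˣ ⧸ H), ← h2, inv_mul_cancel_left]
  have hinv : ∀ x : (ZMod d)ˣ, g * (g * x⁻¹)⁻¹ = x := fun x => by rw [mul_inv, inv_inv, mul_inv_cancel_left]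
  have hsum : ∑ x ∈ A, F (g * x⁻¹) / Mx = ∑ x ∈ Bs, F x / Mx := by
    refine sum_nbij' (fun x => g * x⁻¹) (fun x => g * x⁻¹) (fun x hx => (hmap x).1 hx) (fun x hx => ?_) (fun x _ => hinv x)
      (fun x _ => hinv x) (fun x _ => rfl)
    rw [hmap, hinv]
    exact hx
  -- the cardinality of a coset
  have hcard : (A.card : ℝ) ≤ (Nat.card H : ℝ) := by
    obtain ⟨g0, hg0⟩ := QuotientGroup.mk_surjective a
    have h1 : A.card ≤ Nat.card H := by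
      rw [← Nat.card_eq_finsetCard A]
      refine Nat.card_le_card_of_injective (fun x : A => (⟨g0⁻¹ * x.1, ?_⟩ : H)) ?_
      · have h2 := (hmA x.1).1 x.2
        rw [← hg0] at h2
        exact QuotientGroup.eq.1 h2.symm
      · intro x y hxy
        have h3 := congrArg Subtype.val hxy
        exact Subtype.ext (mul_left_cancel h3)
    exact_mod_cast h1
  have hφ : (0 : ℝ) < (Fintype.card (ZMod d)ˣ : ℝ) := by exact_mod_cast Fintype.card_pos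
  have hidx : (H.index : ℝ) * (Nat.card H : ℝ) = (Fintype.card (ZMod d)ˣ : ℝ) := by
    rw [mul_comm]
    have h1 := Subgroup.card_mul_index H
    rw [Nat.card_eq_fintype_card (α := (ZMod d)ˣ)] at h1
    exact_mod_cast h1
  have hidx0 : (0 : ℝ) < (H.index : ℝ) := by
    have h1 : H.index ≠ 0 := Subgroup.index_ne_zero_of_finite
    exact_mod_cast Nat.pos_of_ne_zero h1
  have hlow : ∀ x, Mx ^ 2 * (F x / Mx + F (g * x⁻¹) / Mx - 1) ≤ F x * F (g * x⁻¹) := by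
    intro x
    have h1 : F x = Mx * (F x / Mx) := by field_simp
    have h2 : F (g * x⁻¹) = Mx * (F (g * x⁻¹) / Mx) := by field_simp
    have h3 : F x / Mx ≤ 1 := by
      rw [div_le_one hM]
      exact F1 x
    have h4 : F (g * x⁻¹) / Mx ≤ 1 := by
      rw [div_le_one hM]
      exact F1 _
    have h5 : F x * F (g * x⁻¹) = Mx ^ 2 * ((F x / Mx) * (F (g * x⁻¹) / Mx)) := by
      nth_rw 1 [h1]
      nth_rw 1 [h2]
      ring
    rw [h5]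
    refine mul_le_mul_of_nonneg_left ?_ (by positivity)
    nlinarith
  have h1 : ∑ x ∈ A, Mx ^ 2 * (F x / Mx + F (g * x⁻¹) / Mx - 1) ≤ ∑ x : (ZMod d)ˣ, F x * F (g * x⁻¹) :=
    le_trans (sum_le_sum fun x _ => hlow x)
      (sum_le_sum_of_subset_of_nonneg (subset_univ A) (fun x _ _ => mul_nonneg (F0 x) (F0 _)))
  have h2 : ∑ x ∈ A, Mx ^ 2 * (F x / Mx + F (g * x⁻¹) / Mx - 1) =
      Mx ^ 2 * (∑ x ∈ A, F x / Mx + ∑ x ∈ A, F (g * x⁻¹) / Mx - (A.card : ℝ)) := by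
    rw [← mul_sum, sum_sub_distrib, sum_add_distrib, sum_const, nsmul_eq_mul, mul_one]
  rw [h2, hsum] at h1
  have h3 : Mx ^ 2 * (1 / 3 * (Nat.card H : ℝ)) ≤
      Mx ^ 2 * (∑ x ∈ A, F x / Mx + ∑ x ∈ Bs, F x / Mx - (A.card : ℝ)) :=
    mul_le_mul_of_nonneg_left (by linarith) (by positivity)
  unfold cv av
  rw [le_div_iff₀ hφ, ← hidx]
  have h4 : Mx ^ 2 / (3 * (H.index : ℝ)) * ((H.index : ℝ) * (Nat.card H : ℝ)) = Mx ^ 2 * (1 / 3 * (Nat.card H : ℝ)) := by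
    field_simp
  rw [h4]
  linarith

end Pool.Agent.Lib.MP_42948a_nt.TP
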