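import Pool.Agent.Lib.MP_42948a_nt.TF.T2

/-!
# Transference for three sets

`∑ (1 - b³) D_T D_A D_B`.
-/

namespace Pool.Agent.Lib.MP_42948a_nt.TP

open Finset Pool.Agent.Lib.MP_42948a_nt.TQ Pool.Agent.Lib.MP_42948a_nt.PS Pool.Agent.Lib.MP_42948a_nt.TF

/-- the Fourier coefficient of `A` -/
noncomputable def DD {d : ℕ} (A : Finset ℕ) (χ : DirichletCharacter ℂ d) : ℂ :=
  ∑ n ∈ A, ((1 / (n : ℝ) : ℝ) : ℂ) * (starRingEnd ℂ) (ev χ (ucl d n))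

theorem phi_pos (d : ℕ) [NeZero d] : (0 : ℝ) < (Fintype.card (ZMod d)ˣ : ℝ) := by
  exact_mod_cast Fintype.card_pos

theorem phi_ne (d : ℕ) [NeZero d] : (Fintype.card (ZMod d)ˣ : ℂ) ≠ 0 := by
  exact_mod_cast (Fintype.card_pos (α := (ZMod d)ˣ)).ne'

theorem cv3_exp {d : ℕ} [NeZero d] (f g h : (ZMod d)ˣ → ℝ) (c : (ZMod d)ˣ) :
    (Fintype.card (ZMod d)ˣ : ℂ) ^ 3 * ((cv f (cv g h) c : ℝ) : ℂ) =
      ∑ χ : DirichletCharacter ℂ d, SF f χ * (SF g χ * SF h χ) * ev χ c := by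
  have h1 := cv_exp f (cv g h) c
  have h2 : (Fintype.card (ZMod d)ˣ : ℂ) ^ 3 * ((cv f (cv g h) c : ℝ) : ℂ) =
      (Fintype.card (ZMod d)ˣ : ℂ) * ((Fintype.card (ZMod d)ˣ : ℂ) ^ 2 * ((cv f (cv g h) c : ℝ) : ℂ)) := by ring
  rw [h2, h1, mul_sum]
  refine sum_congr rfl fun χ _ => ?_
  rw [← SF_cv g h χ]
  ring

private theorem T_sm {d : ℕ} [NeZero d] {X : Finset (DirichletCharacter ℂ d)} {η Q : ℝ} {β : (ZMod d)ˣ → ℝ}
    {b : DirichletCharacter ℂ d → ℝ} (hK : Ker X η Q β b) (T A B : Finset ℕ) (c : (ZMod d)ˣ) :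
    ((cv (sm β T) (cv (sm β A) (sm β B)) c : ℝ) : ℂ) =
      ∑ χ : DirichletCharacter ℂ d, (((b χ) ^ 3 : ℝ) : ℂ) * (DD T χ * (DD A χ * DD B χ) * ev χ c) := by
  have h1 := cv3_exp (sm β T) (sm β A) (sm β B) c
  have h2 : ∀ χ : DirichletCharacter ℂ d, SF (sm β T) χ * (SF (sm β A) χ * SF (sm β B) χ) * ev χ c =
      (Fintype.card (ZMod d)ˣ : ℂ) ^ 3 * ((((b χ) ^ 3 : ℝ) : ℂ) * (DD T χ * (DD A χ * DD B χ) * ev χ c)) := by
    intro χ
    rw [SF_sm, SF_sm, SF_sm, hK.coef]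
    unfold DD
    push_cast
    ring
  rw [Finset.sum_congr rfl fun χ _ => h2 χ, ← Finset.mul_sum] at h1
  exact mul_left_cancel₀ (pow_ne_zero 3 (phi_ne d)) h1

private theorem T_den {d : ℕ} [NeZero d] (T A B : Finset ℕ) (c : (ZMod d)ˣ) :
    ((cv (den T) (cv (den A) (den B)) c : ℝ) : ℂ) =
      ∑ χ : DirichletCharacter ℂ d, DD T χ * (DD A χ * DD B χ) * ev χ c := by
  have h1 := cv3_exp (den T) (den A) (den B) c
  have h2 : ∀ χ : DirichletCharacter ℂ d, SF (den T) χ * (SF (den A) χ * SF (den B) χ) * ev χ c =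
      (Fintype.card (ZMod d)ˣ : ℂ) ^ 3 * (DD T χ * (DD A χ * DD B χ) * ev χ c) := by
    intro χ
    rw [SF_den, SF_den, SF_den]
    unfold DD
    ring
  rw [Finset.sum_congr rfl fun χ _ => h2 χ, ← Finset.mul_sum] at h1
  exact mul_left_cancel₀ (pow_ne_zero 3 (phi_ne d)) h1

theorem DD_par {d : ℕ} [NeZero d] (A : Finset ℕ) (C : ℝ) (hC : ∀ x : (ZMod d)ˣ, den A x ≤ C) :
    ∑ χ : DirichletCharacter ℂ d, ‖DD A χ‖ ^ 2 ≤ C ^ 2 := by
  have hφ := phi_pos d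
  have h0 : ∀ x : (ZMod d)ˣ, 0 ≤ den A x := by
    intro x
    unfold den
    refine mul_nonneg hφ.le (Finset.sum_nonneg fun n _ => ?_)
    by_cases h : ucl d n = x
    · rw [if_pos h]
      positivity
    · rw [if_neg h]
  have h1 := parseval_SF (den A : (ZMod d)ˣ → ℝ)
  have h2 : ∀ χ : DirichletCharacter ℂ d, ‖SF (den A) χ‖ ^ 2 =
      (Fintype.card (ZMod d)ˣ : ℝ) ^ 2 * ‖DD A χ‖ ^ 2 := by
    intro χ
    have h3 : SF (den A) χ = (Fintype.card (ZMod d)ˣ : ℂ) * DD A χ := SF_den A χ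
    rw [h3, norm_mul, mul_pow, Complex.norm_natCast]
  rw [Finset.sum_congr rfl fun χ _ => h2 χ, ← Finset.mul_sum] at h1
  have h4 : ∑ c : (ZMod d)ˣ, den A c ^ 2 ≤ (Fintype.card (ZMod d)ˣ : ℝ) * C ^ 2 := by
    calc ∑ c : (ZMod d)ˣ, den A c ^ 2 ≤ ∑ _c : (ZMod d)ˣ, C ^ 2 :=
          Finset.sum_le_sum fun c _ => pow_le_pow_left₀ (h0 c) (hC c) 2
      _ = (Fintype.card (ZMod d)ˣ : ℝ) * C ^ 2 := by
          rw [Finset.sum_const, Finset.card_univ, nsmul_eq_mul]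
  have h5 : (Fintype.card (ZMod d)ˣ : ℝ) ^ 2 * ∑ χ : DirichletCharacter ℂ d, ‖DD A χ‖ ^ 2 ≤
      (Fintype.card (ZMod d)ˣ : ℝ) ^ 2 * C ^ 2 := by
    rw [h1]
    calc (Fintype.card (ZMod d)ˣ : ℝ) * ∑ c : (ZMod d)ˣ, den A c ^ 2 ≤
          (Fintype.card (ZMod d)ˣ : ℝ) * ((Fintype.card (ZMod d)ˣ : ℝ) * C ^ 2) :=
          mul_le_mul_of_nonneg_left h4 hφ.le
      _ = (Fintype.card (ZMod d)ˣ : ℝ) ^ 2 * C ^ 2 := by ring
  exact le_of_mul_le_mul_left h5 (by positivity)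

theorem DD_Pa {d : ℕ} (T : Finset ℕ) (hT : ∀ p ∈ T, p.Coprime d) (hTW : 0 < Wt T)
    (χ : DirichletCharacter ℂ d) : ‖DD T χ‖ = Wt T * ‖Pa T χ‖ := by
  have h0 : ((Wt T : ℝ) : ℂ) ≠ 0 := by exact_mod_cast hTW.ne'
  have h1 : DD T χ = (starRingEnd ℂ) (((Wt T : ℝ) : ℂ) * Pa T χ) := by
    unfold Pa DD
    rw [mul_div_cancel₀ _ h0, map_sum]
    refine Finset.sum_congr rfl fun p hp => ?_
    rw [map_mul, Complex.conj_ofReal]
    unfold ev
    rw [ucl_val (hT p hp)]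
  rw [h1, RCLike.norm_conj, norm_mul, Complex.norm_real, Real.norm_eq_abs, abs_of_pos hTW]

theorem Pa_le_one {d : ℕ} (T : Finset ℕ) (hT : ∀ p ∈ T, p.Coprime d) (hTW : 0 < Wt T)
    (χ : DirichletCharacter ℂ d) : ‖Pa T χ‖ ≤ 1 := by
  unfold Pa
  rw [norm_div, Complex.norm_real, Real.norm_eq_abs, abs_of_pos hTW, div_le_one hTW]
  refine (norm_sum_le _ _).trans ?_
  unfold Wt
  refine Finset.sum_le_sum fun p hp => ?_
  have h1 : ‖χ (p : ZMod d)‖ = 1 := by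
    have h2 := norm_ev χ (ucl d p)
    unfold ev at h2
    rw [ucl_val (hT p hp)] at h2
    exact h2
  rw [norm_mul, h1, mul_one, Complex.norm_real, Real.norm_eq_abs, abs_of_nonneg (by positivity)]

theorem transfer3 {d : ℕ} [NeZero d] {X : Finset (DirichletCharacter ℂ d)} {η Q : ℝ} {β : (ZMod d)ˣ → ℝ}
    {b : DirichletCharacter ℂ d → ℝ} (hK : Ker X η Q β b) (hη : 0 ≤ η) (τ C : ℝ) (hτ : 0 ≤ τ) (T A B : Finset ℕ)
    (hT : ∀ p ∈ T, p.Coprime d) (hA : ∀ n ∈ A, n.Coprime d) (hB : ∀ n ∈ B, n.Coprime d) (hTW : 0 < Wt T)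
    (hX : ∀ χ, χ ∉ X → ‖Pa T χ‖ ≤ τ) (hCA : ∀ x : (ZMod d)ˣ, den A x ≤ C) (hCB : ∀ x : (ZMod d)ˣ, den B x ≤ C)
    (c : (ZMod d)ˣ) (hc : ∀ p ∈ T, ∀ m ∈ A, ∀ n ∈ B, ((p * (m * n) : ℕ) : ZMod d) ≠ (c : ZMod d)) :
    cv (sm β T) (cv (sm β A) (sm β B)) c ≤ Wt T * ((3 * η + τ) * C ^ 2) := by
  -- the convolution of the densities vanishes
  have hz : ∑ χ : DirichletCharacter ℂ d, DD T χ * (DD A χ * DD B χ) * ev χ c = 0 := by
    rw [← T_den]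
    have h0 : cv (den T) (cv (den A) (den B)) c = 0 := by
      unfold cv av
      rw [sum_eq_zero, zero_div]
      intro x _
      by_cases hx : den T x = 0
      · rw [hx, zero_mul]
      · have hz' : cv (den A) (den B) (c * x⁻¹) = 0 := by
          unfold den at hx
          obtain ⟨p, hp, hp'⟩ := exists_ne_zero_of_sum_ne_zero (right_ne_zero_of_mul hx)
          have h1 : ucl d p = x := by
            by_contra h1
            exact hp' (if_neg h1)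
          refine cv_den_zero A B hA hB _ ?_
          intro m hm n hn h
          apply hc p hp m hm n hn
          rw [Nat.cast_mul, h, ← ucl_val (hT p hp), ← Units.val_mul, h1, mul_comm c, mul_inv_cancel_left]
        unfold cv av at hz'
        rw [hz', mul_zero]
    rw [h0, Complex.ofReal_zero]
  have hs : ((cv (sm β T) (cv (sm β A) (sm β B)) c : ℝ) : ℂ) =
      -∑ χ : DirichletCharacter ℂ d, ((1 - (b χ) ^ 3 : ℝ) : ℂ) * (DD T χ * (DD A χ * DD B χ) * ev χ c) := by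
    rw [T_sm hK, ← sub_eq_zero, sub_neg_eq_add, ← Finset.sum_add_distrib, ← hz]
    refine Finset.sum_congr rfl fun χ _ => ?_
    push_cast
    ring
  have hb3 : ∀ χ : DirichletCharacter ℂ d, 0 ≤ 1 - (b χ) ^ 3 := by
    intro χ
    have hb0 := hK.b_nonneg χ
    have hb1 := hK.b_le χ
    have := pow_le_one₀ (n := 3) hb0 hb1
    linarith
  have hw : ∀ χ : DirichletCharacter ℂ d, (1 - (b χ) ^ 3) * ‖Pa T χ‖ ≤ 3 * η + τ := by
    intro χ
    have hb0 := hK.b_nonneg χ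
    have hb1 := hK.b_le χ
    have hP := Pa_le_one T hT hTW χ
    have hP0 := norm_nonneg (Pa T χ)
    have h3 := hb3 χ
    by_cases h : χ ∈ X
    · have h1 := hK.big χ h
      have h2 : 1 - (b χ) ^ 3 ≤ 3 * η := by
        have h4 : 1 - (b χ) ^ 3 = (1 - b χ) * (1 + b χ + (b χ) ^ 2) := by ring
        have h5 : 1 + b χ + (b χ) ^ 2 ≤ 3 := by nlinarith
        have h6 : 0 ≤ 1 + b χ + (b χ) ^ 2 := by positivity
        rw [h4]
        calc (1 - b χ) * (1 + b χ + (b χ) ^ 2) ≤ η * (1 + b χ + (b χ) ^ 2) := mul_le_mul_of_nonneg_right (by linarith) h6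
          _ ≤ η * 3 := mul_le_mul_of_nonneg_left h5 hη
          _ = 3 * η := by ring
      calc (1 - (b χ) ^ 3) * ‖Pa T χ‖ ≤ (1 - (b χ) ^ 3) * 1 := mul_le_mul_of_nonneg_left hP h3
        _ ≤ 3 * η + τ := by linarith
    · have h1 := hX χ h
      have h2 : 1 - (b χ) ^ 3 ≤ 1 := by
        have := pow_nonneg hb0 3
        linarith
      calc (1 - (b χ) ^ 3) * ‖Pa T χ‖ ≤ 1 * ‖Pa T χ‖ := mul_le_mul_of_nonneg_right h2 hP0
        _ ≤ 3 * η + τ := by linarith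
  have hmain : cv (sm β T) (cv (sm β A) (sm β B)) c ≤
      ∑ χ : DirichletCharacter ℂ d, Wt T * (3 * η + τ) * (‖DD A χ‖ * ‖DD B χ‖) := by
    refine (le_abs_self _).trans ?_
    rw [← Real.norm_eq_abs, ← Complex.norm_real, hs, norm_neg]
    refine (norm_sum_le _ _).trans (Finset.sum_le_sum fun χ _ => ?_)
    rw [norm_mul, norm_mul, norm_mul, norm_mul, norm_ev, mul_one, DD_Pa T hT hTW,
      Complex.norm_real, Real.norm_eq_abs, abs_of_nonneg (hb3 χ)]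
    have h1 : 0 ≤ ‖DD A χ‖ * ‖DD B χ‖ := mul_nonneg (norm_nonneg _) (norm_nonneg _)
    calc (1 - (b χ) ^ 3) * (Wt T * ‖Pa T χ‖ * (‖DD A χ‖ * ‖DD B χ‖)) =
          Wt T * ((1 - (b χ) ^ 3) * ‖Pa T χ‖) * (‖DD A χ‖ * ‖DD B χ‖) := by ring
      _ ≤ Wt T * (3 * η + τ) * (‖DD A χ‖ * ‖DD B χ‖) :=
          mul_le_mul_of_nonneg_right (mul_le_mul_of_nonneg_left (hw χ) hTW.le) h1
  refine hmain.trans ?_
  rw [← Finset.mul_sum]
  have hAB : ∑ χ : DirichletCharacter ℂ d, ‖DD A χ‖ * ‖DD B χ‖ ≤ C ^ 2 := by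
    calc ∑ χ : DirichletCharacter ℂ d, ‖DD A χ‖ * ‖DD B χ‖ ≤
          ∑ χ : DirichletCharacter ℂ d, (‖DD A χ‖ ^ 2 / 2 + ‖DD B χ‖ ^ 2 / 2) := by
          refine Finset.sum_le_sum fun χ _ => ?_
          nlinarith [sq_nonneg (‖DD A χ‖ - ‖DD B χ‖)]
      _ = (∑ χ : DirichletCharacter ℂ d, ‖DD A χ‖ ^ 2) / 2 +
          (∑ χ : DirichletCharacter ℂ d, ‖DD B χ‖ ^ 2) / 2 := by
          rw [Finset.sum_add_distrib, Finset.sum_div, Finset.sum_div]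
      _ ≤ C ^ 2 := by
          have h1 := DD_par A C hCA
          have h2 := DD_par B C hCB
          linarith
  calc Wt T * (3 * η + τ) * ∑ χ : DirichletCharacter ℂ d, ‖DD A χ‖ * ‖DD B χ‖ ≤
        Wt T * (3 * η + τ) * C ^ 2 :=
        mul_le_mul_of_nonneg_left hAB (mul_nonneg hTW.le (by linarith))
    _ = Wt T * ((3 * η + τ) * C ^ 2) := by ring

end Pool.Agent.Lib.MP_42948a_nt.TP
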