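import Pool.Agent.Lib.MP_42948a_nt.TF.FW
import Pool.Agent.Lib.MP_42948a_nt.TF.E3
import Pool.Agent.Lib.MP_42948a_nt.TP.T

/-!
# Few large characters: windows up to `d^2`, and the window beyond `d`
-/

namespace Pool.Agent.Lib.MP_42948a_nt.TP

open Finset Pool.Agent.Lib.MP_42948a_nt.OA Pool.Agent.Lib.MP_42948a_nt.TQ Pool.Agent.Lib.MP_42948a_nt.PS Pool.Agent.Lib.MP_42948a_nt.TF

theorem fewL (α τ : ℝ) (hα : 0 < α) (hα1 : α ≤ 1) (hτ : 0 < τ) : ∃ m d0 : ℕ, ∀ d : ℕ, d0 ≤ d → ∀ [NeZero d],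
    ∀ X : Finset (DirichletCharacter ℂ d), (∀ χ ∈ X, τ ≤ ‖Pa (PW d α (2 * α)) χ‖) → X.card ≤ m := by
  obtain ⟨k, hkdef⟩ : ∃ k : ℕ, k = ⌈(1 / 2 + α) / α⌉₊ := ⟨_, rfl⟩
  have hk : 1 / 2 + α ≤ (k : ℝ) * α := by
    rw [hkdef, ← div_le_iff₀ hα]
    exact Nat.le_ceil _
  obtain ⟨C, hC, d1, h1⟩ := few_large α hα hα1 k hk
  have hlim : Filter.Tendsto (fun d : ℕ => τ ^ (2 * k) * (d : ℝ) ^ (α / 8)) Filter.atTop Filter.atTop :=
    Filter.Tendsto.const_mul_atTop (by positivity)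
      ((tendsto_rpow_atTop (show 0 < α / 8 by positivity)).comp tendsto_natCast_atTop_atTop)
  obtain ⟨d2, h2⟩ := Filter.eventually_atTop.1 (hlim.eventually_gt_atTop (2 * C))
  refine ⟨⌈C / τ ^ (2 * k)⌉₊, max d1 d2, ?_⟩
  intro d hd _ X hX
  have h3 := h1 d ((le_max_left _ _).trans hd) τ hτ (h2 d ((le_max_right _ _).trans hd)) X hX
  have h4 : (X.card : ℝ) ≤ C / τ ^ (2 * k) := by
    rw [le_div_iff₀ (by positivity)]
    exact h3
  exact_mod_cast h4.trans (Nat.le_ceil _)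

/-- few characters are large on a set of bounded density -/
theorem few_den {d : ℕ} [NeZero d] (T : Finset ℕ) (hT : ∀ p ∈ T, p.Coprime d) (C w τ : ℝ) (hw : 0 < w) (hτ : 0 < τ)
    (hTW : w ≤ Wt T) (hC : ∀ x : (ZMod d)ˣ, den T x ≤ C) (X : Finset (DirichletCharacter ℂ d))
    (hX : ∀ χ ∈ X, τ ≤ ‖Pa T χ‖) : X.card ≤ ⌈C ^ 2 / (w * τ) ^ 2⌉₊ := by
  have h1 := DD_par T C hC
  have hT0 : 0 < Wt T := by linarith
  have h2 : ∑ _χ ∈ X, (w * τ) ^ 2 ≤ ∑ χ : DirichletCharacter ℂ d, ‖DD T χ‖ ^ 2 := by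
    refine le_trans (sum_le_sum fun χ hχ => ?_) (sum_le_sum_of_subset_of_nonneg (subset_univ X) (fun χ _ _ => by positivity))
    rw [DD_Pa T hT hT0]
    exact pow_le_pow_left₀ (by positivity) (mul_le_mul hTW (hX χ hχ) hτ.le (by linarith)) 2
  rw [sum_const, nsmul_eq_mul] at h2
  have h3 : (X.card : ℝ) ≤ C ^ 2 / (w * τ) ^ 2 := by
    rw [le_div_iff₀ (by positivity)]
    linarith
  exact_mod_cast h3.trans (Nat.le_ceil _)

theorem den_mono {d : ℕ} [NeZero d] {A B : Finset ℕ} (h : A ⊆ B) (x : (ZMod d)ˣ) : den A x ≤ den B x := by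
  unfold den
  refine mul_le_mul_of_nonneg_left ?_ (phi_pos d).le
  refine sum_le_sum_of_subset_of_nonneg h fun n _ _ => ?_
  split_ifs
  · positivity
  · exact le_rfl

end Pool.Agent.Lib.MP_42948a_nt.TP
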