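import Pool.Agent.Lib.MP_42948a_nt.TF.U2
import Pool.Agent.Lib.MP_42948a_nt.TF.M1
import Pool.Agent.Lib.MP_42948a_nt.FP.P
import Pool.Agent.Lib.MP_42948a_nt.KC.Main
import Pool.Agent.Lib.MP_42948a_nt.TP.Defs
import Pool.Agent.Lib.MP_42948a_nt.TP.W
import Pool.Agent.Lib.MP_42948a_nt.TP.F

/-!
# Exactly three primes `≤ d^(1+ε)`, every modulus, every reduced class

`W = PW d u (u + w)`, `u = 1 + ε0`, `w = ε0 / 4`, `F = sm (kr S) W ≤ Mx` (Selberg, Burgess exponent `1/3`), so `f = F / Mx ≤ 1` has mean `≥ 1/3 + δ`.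
If `c` is not a product of three primes, `transfer3` makes the triple convolution of `f` at `c` small and `comb3` gives the subgroup `H` and the set `M` of
cosets; two nearly full cosets and `transfer` put the primes of all windows into `M`; then `Endgame`.
-/

namespace Pool.Agent.Lib.MP_42948a_nt.TP

open Finset Pool.Agent.Lib.MP_42948a_nt.OA Pool.Agent.Lib.MP_42948a_nt.TQ Pool.Agent.Lib.MP_42948a_nt.PS Pool.Agent.Lib.MP_42948a_nt.TF
  Pool.Agent.Lib.MP_42948a_nt.FP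
open scoped Pointwise

/-- the numerical inequality -/
theorem num3 (ε0 κ w η : ℝ) (h0 : 0 < ε0) (h1 : ε0 ≤ 1 / 1000) (hκ : κ = ε0 / 24) (hw : w = ε0 / 4) (hη : η = w * (ε0 / 100)) :
    (1 / 3 + ε0 / 50) * ((1 + κ) * (2 * w / (1 + ε0 - 1 / 3 - κ))) ≤ w / (1 + ε0 + w) - η := by
  subst hη
  have hw0 : 0 < w := by
    rw [hw]
    linarith
  have hA : 0 < 1 + ε0 - 1 / 3 - κ := by
    rw [hκ]
    linarith
  have hB : 0 < 1 + ε0 + w := by linarith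
  have e1 : (1 / 3 + ε0 / 50) * ((1 + κ) * (2 * w / (1 + ε0 - 1 / 3 - κ))) =
      w * ((1 / 3 + ε0 / 50) * (1 + κ) * 2 / (1 + ε0 - 1 / 3 - κ)) := by ring
  have e2 : w / (1 + ε0 + w) - w * (ε0 / 100) = w * (1 / (1 + ε0 + w) - ε0 / 100) := by ring
  rw [e1, e2]
  refine mul_le_mul_of_nonneg_left ?_ hw0.le
  rw [div_le_iff₀ hA]
  have key : ((1 / 3 + ε0 / 50) * (1 + κ) * 2 + ε0 / 100 * (1 + ε0 - 1 / 3 - κ)) * (1 + ε0 + w) ≤ 1 + ε0 - 1 / 3 - κ := by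
    rw [hκ, hw]
    have h2 : 0 ≤ ε0 ^ 2 := sq_nonneg _
    have h3 : ε0 ^ 2 ≤ 1 / 1000 * ε0 := by nlinarith
    have h4 : 0 ≤ ε0 ^ 3 := by positivity
    have h5 : ε0 ^ 3 ≤ 1 / 1000 * ε0 := by nlinarith
    nlinarith
  have e3 := (le_div_iff₀ hB).2 key
  have e4 : (1 / (1 + ε0 + w) - ε0 / 100) * (1 + ε0 - 1 / 3 - κ) =
      (1 + ε0 - 1 / 3 - κ) / (1 + ε0 + w) - ε0 / 100 * (1 + ε0 - 1 / 3 - κ) := by ring
  rw [e4]
  linarith

/-- exactly three primes `≤ d^(1+ε)` -/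
theorem three_of (h3 : Sharp3) (hEnd : Endgame) (ε : ℝ) (hε : 0 < ε) : ∃ δ : ℝ, 0 < δ ∧ ∃ d0 : ℕ, ∀ d : ℕ, d0 ≤ d →
    ∀ c : (ZMod d)ˣ, ∃ p1 p2 p3 : ℕ, p1.Prime ∧ p2.Prime ∧ p3.Prime ∧ (d : ℝ) ^ δ < p1 ∧ (d : ℝ) ^ δ < p2 ∧ (d : ℝ) ^ δ < p3 ∧
      (p1 : ℝ) ≤ (d : ℝ) ^ (1 + ε) ∧ (p2 : ℝ) ≤ (d : ℝ) ^ (1 + ε) ∧ (p3 : ℝ) ≤ (d : ℝ) ^ (1 + ε) ∧
      ((p1 * p2 * p3 : ℕ) : ZMod d) = (c : ZMod d) := by
  classical
  obtain ⟨ε0, hε0d⟩ : ∃ ε0 : ℝ, ε0 = min (ε / 2) (1 / 1000) := ⟨_, rfl⟩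
  have hε0 : 0 < ε0 := by
    rw [hε0d]
    exact lt_min (by positivity) (by norm_num)
  have hε01 : ε0 ≤ 1 / 1000 := by
    rw [hε0d]
    exact min_le_right _ _
  have hε0ε : 2 * ε0 ≤ ε := by
    have : ε0 ≤ ε / 2 := by
      rw [hε0d]
      exact min_le_left _ _
    linarith
  obtain ⟨κ, hκ⟩ : ∃ κ : ℝ, κ = ε0 / 24 := ⟨_, rfl⟩
  obtain ⟨w, hw⟩ : ∃ w : ℝ, w = ε0 / 4 := ⟨_, rfl⟩
  obtain ⟨ηw, hηw⟩ : ∃ ηw : ℝ, ηw = w * (ε0 / 100) := ⟨_, rfl⟩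
  have hκ0 : 0 < κ := by
    rw [hκ]
    positivity
  have hw0 : 0 < w := by
    rw [hw]
    positivity
  have hηw0 : 0 < ηw := by
    rw [hηw]
    positivity
  have hnum := num3 ε0 κ w ηw hε0 hε01 hκ hw hηw
  obtain ⟨Mx, hMx⟩ : ∃ Mx : ℝ, Mx = (1 + κ) * (2 * w / (1 + ε0 - 1 / 3 - κ)) := ⟨_, rfl⟩
  rw [← hMx] at hnum
  have hMx0 : 0 < Mx := by
    rw [hMx]
    have h1 : 0 < 1 + ε0 - 1 / 3 - κ := by
      rw [hκ]
      linarith
    positivity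
  obtain ⟨δ, hδ⟩ : ∃ δ : ℝ, δ = ε0 / 50 := ⟨_, rfl⟩
  rw [← hδ] at hnum
  have hδ0 : 0 < δ := by
    rw [hδ]
    positivity
  obtain ⟨N0, hN0⟩ := KC.comb3 δ hδ0
  obtain ⟨ηc, hηc, hcomb⟩ := hN0 1 one_pos
  obtain ⟨α0, hα0, hEα⟩ := hEnd ε0 hε0 hε01 N0
  -- the scale `α`
  obtain ⟨J, hJ⟩ : ∃ J : ℕ, (1 + 2 * ε0) / min α0 (1 / 100) < (2 : ℝ) ^ J := pow_unbounded_of_one_lt _ (by norm_num)
  have h2J : (0 : ℝ) < 2 ^ J := by positivity
  have hαm : 0 < min α0 (1 / 100) := lt_min hα0 (by norm_num)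
  obtain ⟨α, hαd⟩ : ∃ α : ℝ, α = (1 + 2 * ε0) / 2 ^ J := ⟨_, rfl⟩
  have hα : 0 < α := by
    rw [hαd]
    positivity
  have hαt : 2 ^ J * α = 1 + 2 * ε0 := by
    rw [hαd]
    field_simp
  have hαm' : α ≤ min α0 (1 / 100) := by
    rw [hαd, div_le_iff₀ h2J]
    rw [div_lt_iff₀ hαm] at hJ
    linarith
  have hαα0 : α ≤ α0 := hαm'.trans (min_le_left _ _)
  have hα100 : α ≤ 1 / 100 := hαm'.trans (min_le_right _ _)
  obtain ⟨κE, hκE, dE, hE⟩ := hEα α hα hαα0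
  obtain ⟨C, hC, dC, hden⟩ := den_bound ε0 α hε0 (by linarith) hα
  have hC0 : 0 < C := by linarith
  have hlog2 : 0 < Real.log 2 := Real.log_pos (by norm_num)
  have hlog2' : Real.log 2 < 1 := by
    have := Real.log_two_lt_d9
    linarith
  obtain ⟨η0, hη0d⟩ : ∃ η0 : ℝ, η0 = min (Real.log 2 / 2) (1 - Real.log 2) := ⟨_, rfl⟩
  have hη0 : 0 < η0 := by
    rw [hη0d]
    exact lt_min (by positivity) (by linarith)
  obtain ⟨dW, hW⟩ := win α 2 η0 hα hη0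
  obtain ⟨dW', hW'⟩ := win α 2 ηw hα hηw0
  -- the constant `t`
  obtain ⟨A1, hA1⟩ : ∃ A1 : ℝ, A1 = 4 * C ^ 2 / Mx ^ 3 := ⟨_, rfl⟩
  obtain ⟨A2, hA2⟩ : ∃ A2 : ℝ, A2 = (J + 1 : ℝ) * (9 * (N0 + 1 : ℝ) * C ^ 2 / Mx ^ 2) := ⟨_, rfl⟩
  have hA10 : 0 < A1 := by
    rw [hA1]
    positivity
  have hA20 : 0 < A2 := by
    rw [hA2]
    positivity
  obtain ⟨t, ht⟩ : ∃ t : ℝ, t = min (ηc / A1) (κE / A2) := ⟨_, rfl⟩
  have ht0 : 0 < t := by
    rw [ht]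
    exact lt_min (by positivity) (by positivity)
  have htA1 : A1 * t ≤ ηc := by
    have h1 : t ≤ ηc / A1 := by
      rw [ht]
      exact min_le_left _ _
    rw [le_div_iff₀ hA10] at h1
    linarith
  have htA2 : A2 * t ≤ κE := by
    have h1 : t ≤ κE / A2 := by
      rw [ht]
      exact min_le_right _ _
    rw [le_div_iff₀ hA20] at h1
    linarith
  -- few large characters
  have hfew0 : ∀ j : ℕ, ∃ mj dj : ℕ, j < J → ∀ d : ℕ, dj ≤ d → ∀ [NeZero d],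
      ∀ X : Finset (DirichletCharacter ℂ d), (∀ χ ∈ X, t ≤ ‖Pa (PW d (2 ^ j * α) (2 * (2 ^ j * α))) χ‖) → X.card ≤ mj := by
    intro j
    by_cases hj : j < J
    · have h3 : (2 : ℝ) ^ (j + 1) ≤ 2 ^ J := pow_le_pow_right₀ (by norm_num) hj
      have h4 : (2 : ℝ) ^ j * α ≤ 1 := by
        have h5 := mul_le_mul_of_nonneg_right h3 hα.le
        rw [hαt, pow_succ] at h5
        linarith
      obtain ⟨mj, dj, h6⟩ := fewL (2 ^ j * α) t (by positivity) h4 ht0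
      exact ⟨mj, dj, fun _ => h6⟩
    · exact ⟨0, 0, fun h => absurd h hj⟩
  choose mf dF hfew using hfew0
  obtain ⟨w0, hw0d⟩ : ∃ w0 : ℝ, w0 = w / (1 + ε0 + w) - ηw := ⟨_, rfl⟩
  rw [← hw0d] at hnum
  have hw00 : 0 < w0 := lt_of_lt_of_le (by positivity) hnum
  obtain ⟨B, hker⟩ := kernel_kr (⌈C ^ 2 / (w0 * t) ^ 2⌉₊ + ∑ j ∈ range J, mf j) t ht0
  obtain ⟨d3, h3B⟩ := h3 κ (1 + ε0) w hκ0 (by linarith) (by linarith) hw0 (by linarith) B
  refine ⟨α, hα, 1 + dE + dC + dW + dW' + d3 + ∑ j ∈ range J, dF j, ?_⟩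
  intro d hd c
  have : NeZero d := ⟨by omega⟩
  have hd1 : 1 ≤ d := by omega
  have hd1' : (1 : ℝ) ≤ d := by exact_mod_cast hd1
  have hd0 : (0 : ℝ) < d := by linarith
  have hdF : ∀ j, j < J → dF j ≤ d := by
    intro j hj
    have h1 : dF j ≤ ∑ j ∈ range J, dF j := single_le_sum (f := dF) (fun i _ => Nat.zero_le _) (mem_range.mpr hj)
    omega
  by_contra hno
  -- the class is blocked
  have hblk : ∀ p1 p2 p3 : ℕ, p1.Prime → p2.Prime → p3.Prime → ⌊(d : ℝ) ^ α⌋₊ < p1 → ⌊(d : ℝ) ^ α⌋₊ < p2 → ⌊(d : ℝ) ^ α⌋₊ < p3 →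
      (p1 : ℝ) ≤ (d : ℝ) ^ (1 + 2 * ε0) → (p2 : ℝ) ≤ (d : ℝ) ^ (1 + 2 * ε0) → (p3 : ℝ) ≤ (d : ℝ) ^ (1 + 2 * ε0) →
      ((p1 * p2 * p3 : ℕ) : ZMod d) ≠ (c : ZMod d) := by
    intro p1 p2 p3 q1 q2 q3 l1 l2 l3 u1 u2 u3 hc
    have hpow : (d : ℝ) ^ (1 + 2 * ε0) ≤ (d : ℝ) ^ (1 + ε) := Real.rpow_le_rpow_of_exponent_le hd1' (by linarith)
    exact hno ⟨p1, p2, p3, q1, q2, q3, Nat.lt_of_floor_lt l1, Nat.lt_of_floor_lt l2, Nat.lt_of_floor_lt l3, u1.trans hpow,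
      u2.trans hpow, u3.trans hpow, hc⟩
  -- the main window
  obtain ⟨W, hWd⟩ : ∃ W : Finset ℕ, W = PW d (1 + ε0) (1 + ε0 + w) := ⟨_, rfl⟩
  have hWco : ∀ p ∈ W, p.Coprime d := by
    rw [hWd]
    exact fun p hp => PW_coprime hp
  have hWm : ∀ p ∈ W, p.Prime ∧ ⌊(d : ℝ) ^ α⌋₊ < p ∧ (p : ℝ) ≤ (d : ℝ) ^ (1 + 2 * ε0) := by
    intro p hp
    rw [hWd] at hp
    obtain ⟨h1, h2, h3', -⟩ := mem_PW.1 hp
    refine ⟨h1, lt_of_le_of_lt (Nat.floor_le_floor (Real.rpow_le_rpow_of_exponent_le hd1' (by linarith))) h2, ?_⟩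
    refine ((Nat.le_floor_iff (Real.rpow_nonneg hd0.le _)).1 h3').trans (Real.rpow_le_rpow_of_exponent_le hd1' ?_)
    rw [hw]
    linarith
  have hWC : ∀ x : (ZMod d)ˣ, den W x ≤ C := by
    intro x
    refine le_trans (den_mono ?_ x) (hden d (by omega) 1 x)
    rw [hWd, EW_one hd1 (show α ≤ 1 + ε0 by linarith)]
    exact PW_mono hd1 le_rfl (by rw [hw]; linarith)
  have hWt1 : w0 ≤ Wt W := by
    have h1 := hW' d (by omega) (1 + ε0) (1 + ε0 + w) (by linarith) (by linarith) (by rw [hw]; linarith)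
    have h2 := (abs_le.1 h1).1
    have h4 : w / (1 + ε0 + w) ≤ Real.log ((1 + ε0 + w) / (1 + ε0)) := by
      have h5 : Real.log ((1 + ε0) / (1 + ε0 + w)) ≤ (1 + ε0) / (1 + ε0 + w) - 1 := Real.log_le_sub_one_of_pos (by positivity)
      have h6 : Real.log ((1 + ε0 + w) / (1 + ε0)) = -Real.log ((1 + ε0) / (1 + ε0 + w)) := by
        rw [← Real.log_inv, inv_div]
      have h7 : (1 + ε0) / (1 + ε0 + w) - 1 = -(w / (1 + ε0 + w)) := by
        have h8 : 1 + ε0 + w ≠ 0 := by positivity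
        field_simp
        ring
      rw [h6]
      linarith
    unfold Wt
    rw [hWd, hw0d]
    linarith
  have hWt0 : 0 < Wt W := by linarith
  have hWtle : Wt W ≤ 1 := by
    have h1 := hW d (by omega) (1 + ε0) (1 + ε0 + w) (by linarith) (by linarith) (by rw [hw]; linarith)
    have h2 := (abs_le.1 h1).2
    have h4 : Real.log ((1 + ε0 + w) / (1 + ε0)) ≤ Real.log 2 := by
      refine Real.log_le_log (by positivity) ?_
      rw [div_le_iff₀ (by linarith), hw]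
      linarith
    have h5 : η0 ≤ 1 - Real.log 2 := by
      rw [hη0d]
      exact min_le_right _ _
    unfold Wt
    rw [hWd]
    linarith
  -- the exceptional characters
  obtain ⟨X, hX⟩ : ∃ X : Finset (DirichletCharacter ℂ d), X = univ.filter (fun χ => t ≤ ‖Pa W χ‖) ∪
      (range J).biUnion (fun j => univ.filter (fun χ => t ≤ ‖Pa (PW d (2 ^ j * α) (2 * (2 ^ j * α))) χ‖)) := ⟨_, rfl⟩
  have hXc : X.card ≤ ⌈C ^ 2 / (w0 * t) ^ 2⌉₊ + ∑ j ∈ range J, mf j := by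
    rw [hX]
    refine (card_union_le _ _).trans (add_le_add ?_ ?_)
    · exact few_den W hWco C w0 t hw00 ht0 hWt1 hWC _ (fun χ hχ => (mem_filter.mp hχ).2)
    · refine card_biUnion_le.trans (sum_le_sum fun j hj => ?_)
      have hj' := mem_range.mp hj
      exact hfew j hj' d (hdF j hj') _ (fun χ hχ => (mem_filter.mp hχ).2)
  have hXW : ∀ χ : DirichletCharacter ℂ d, χ ∉ X → ‖Pa W χ‖ ≤ t := by
    intro χ hχ
    by_contra hlt
    apply hχ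
    rw [hX, mem_union]
    exact Or.inl (mem_filter.mpr ⟨mem_univ _, (not_le.mp hlt).le⟩)
  have hXj : ∀ j : ℕ, j < J → ∀ χ : DirichletCharacter ℂ d, χ ∉ X → ‖Pa (PW d (2 ^ j * α) (2 * (2 ^ j * α))) χ‖ ≤ t := by
    intro j hj χ hχ
    by_contra hlt
    apply hχ
    rw [hX, mem_union, mem_biUnion]
    exact Or.inr ⟨j, mem_range.mpr hj, mem_filter.mpr ⟨mem_univ _, (not_le.mp hlt).le⟩⟩
  obtain ⟨S, hS, hSB, hKer⟩ := hker d X hXc
  have hβ := hKer.nonneg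
  obtain ⟨F, hF⟩ : ∃ F : (ZMod d)ˣ → ℝ, F = sm (kr S) W := ⟨_, rfl⟩
  have hF0 : ∀ x, 0 ≤ F x := by
    rw [hF]
    exact sm_nonneg hβ _
  have hF1 : ∀ x, F x ≤ Mx := by
    intro x
    rw [hF, hWd, hMx]
    exact h3B d (by omega) S hS hSB x
  have hφ := phi_pos d
  -- `comb3`
  have hmean : (1 / 3 + δ) * (Fintype.card (ZMod d)ˣ : ℝ) ≤ ∑ x, F x / Mx := by
    have h1 : ∑ x, F x = (Fintype.card (ZMod d)ˣ : ℝ) * Wt W := by
      have h2 := av_sm hKer W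
      rw [← hF] at h2
      unfold av at h2
      rw [div_eq_iff hφ.ne'] at h2
      rw [h2]
      unfold Wt
      ring
    rw [← sum_div, h1, le_div_iff₀ hMx0]
    calc (1 / 3 + δ) * (Fintype.card (ZMod d)ˣ : ℝ) * Mx = (Fintype.card (ZMod d)ˣ : ℝ) * ((1 / 3 + δ) * Mx) := by ring
      _ ≤ (Fintype.card (ZMod d)ˣ : ℝ) * Wt W := mul_le_mul_of_nonneg_left (by linarith) hφ.le
  have htrip : ∑ x : (ZMod d)ˣ, ∑ y : (ZMod d)ˣ, F x / Mx * (F y / Mx) * (F (c * x⁻¹ * y⁻¹) / Mx) ≤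
      ηc * (Fintype.card (ZMod d)ˣ : ℝ) ^ 2 := by
    have h1 := transfer3 hKer ht0.le t C ht0.le W W W hWco hWco hWco hWt0 hXW hWC hWC c (by
      intro p hp m hm n hn
      rw [← mul_assoc]
      obtain ⟨a1, a2, a3⟩ := hWm p hp
      obtain ⟨b1, b2, b3⟩ := hWm m hm
      obtain ⟨c1, c2, c3⟩ := hWm n hn
      exact hblk p m n a1 b1 c1 a2 b2 c2 a3 b3 c3)
    rw [← hF] at h1
    have h2 : ∑ x : (ZMod d)ˣ, ∑ y : (ZMod d)ˣ, F x / Mx * (F y / Mx) * (F (c * x⁻¹ * y⁻¹) / Mx) =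
        (Fintype.card (ZMod d)ˣ : ℝ) ^ 2 / Mx ^ 3 * cv F (cv F F) c := by
      unfold cv av
      have h4 : ∀ x : (ZMod d)ˣ, ∑ y : (ZMod d)ˣ, F x / Mx * (F y / Mx) * (F (c * x⁻¹ * y⁻¹) / Mx) =
          (Fintype.card (ZMod d)ˣ : ℝ) / Mx ^ 3 * (F x * ((∑ y : (ZMod d)ˣ, F y * F (c * x⁻¹ * y⁻¹)) / (Fintype.card (ZMod d)ˣ : ℝ))) := by
        intro x
        have h5 : (Fintype.card (ZMod d)ˣ : ℝ) / Mx ^ 3 * (F x * ((∑ y : (ZMod d)ˣ, F y * F (c * x⁻¹ * y⁻¹)) / (Fintype.card (ZMod d)ˣ : ℝ))) =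
            (F x / Mx ^ 3) * ∑ y : (ZMod d)ˣ, F y * F (c * x⁻¹ * y⁻¹) := by
          field_simp
        rw [h5, mul_sum]
        refine sum_congr rfl fun y _ => ?_
        field_simp
      rw [sum_congr rfl fun x _ => h4 x, ← mul_sum]
      field_simp
    rw [h2]
    have h4 : cv F (cv F F) c ≤ 4 * t * C ^ 2 := by
      refine h1.trans ?_
      have h5 : Wt W * ((3 * t + t) * C ^ 2) ≤ 1 * ((3 * t + t) * C ^ 2) := mul_le_mul_of_nonneg_right hWtle (by positivity)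
      linarith
    calc (Fintype.card (ZMod d)ˣ : ℝ) ^ 2 / Mx ^ 3 * cv F (cv F F) c ≤
        (Fintype.card (ZMod d)ˣ : ℝ) ^ 2 / Mx ^ 3 * (4 * t * C ^ 2) := mul_le_mul_of_nonneg_left h4 (by positivity)
      _ = (A1 * t) * (Fintype.card (ZMod d)ˣ : ℝ) ^ 2 := by
        rw [hA1]
        ring
      _ ≤ ηc * (Fintype.card (ZMod d)ˣ : ℝ) ^ 2 := mul_le_mul_of_nonneg_right htA1 (by positivity)
  obtain ⟨H, M, hH, hM1, hM2, hM3, hM4, -, hM6⟩ := hcomb (ZMod d)ˣ c (fun x => F x / Mx) (fun x => div_nonneg (hF0 x) hMx0.le)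
    (fun x => by
      rw [div_le_one hMx0]
      exact hF1 x) hmean htrip
  have hidx0 : (0 : ℝ) < (H.index : ℝ) := by
    have h1 : H.index ≠ 0 := Subgroup.index_ne_zero_of_finite
    exact_mod_cast Nat.pos_of_ne_zero h1
  have hidxN : (H.index : ℝ) ≤ N0 := by exact_mod_cast hH
  -- the primes of all windows lie in `M`
  have hprimes : ∑ p ∈ (PW d α (1 + 2 * ε0)).filter (fun p : ℕ => ((ucl d p : (ZMod d)ˣ) : (ZMod d)ˣ ⧸ H) ∉ M), 1 / (p : ℝ) ≤ κE := by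
    have hg0 : ∀ n : ℕ, 0 ≤ (if ((ucl d n : (ZMod d)ˣ) : (ZMod d)ˣ ⧸ H) ∉ M then 1 / (n : ℝ) else 0) := by
      intro n
      split_ifs <;> positivity
    have h1 := PW_dyad (g := fun p : ℕ => if ((ucl d p : (ZMod d)ˣ) : (ZMod d)ˣ ⧸ H) ∉ M then 1 / (p : ℝ) else 0) hg0 (d := d) α
      (9 * (N0 + 1 : ℝ) * C ^ 2 / Mx ^ 2 * t) J (by
        intro j hj
        have h3' : (2 : ℝ) ^ (j + 1) ≤ 2 ^ J := pow_le_pow_right₀ (by norm_num) hj
        have h5 := mul_le_mul_of_nonneg_right h3' hα.le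
        rw [hαt, pow_succ] at h5
        have h6 : (1 : ℝ) ≤ 2 ^ j := one_le_pow₀ (by norm_num)
        have h7 : α ≤ 2 ^ j * α := by nlinarith
        have h8 : 0 < 2 ^ j * α := by positivity
        obtain ⟨T, hT⟩ : ∃ T : Finset ℕ, T = PW d (2 ^ j * α) (2 * (2 ^ j * α)) := ⟨_, rfl⟩
        have h9 := hW d (by omega) (2 ^ j * α) (2 * (2 ^ j * α)) h7 (by linarith) (by linarith)
        have h10 : 2 * (2 ^ j * α) / (2 ^ j * α) = 2 := by
          field_simp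
        rw [h10, abs_le] at h9
        have h11 : η0 ≤ Real.log 2 / 2 := by
          rw [hη0d]
          exact min_le_left _ _
        have h12 : η0 ≤ 1 - Real.log 2 := by
          rw [hη0d]
          exact min_le_right _ _
        have hT0 : 0 < Wt T := by
          unfold Wt
          rw [hT]
          linarith [h9.1]
        have hT1 : Wt T ≤ 1 := by
          unfold Wt
          rw [hT]
          linarith [h9.2]
        have hTco : ∀ p ∈ T, p.Coprime d := by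
          rw [hT]
          exact fun p hp => PW_coprime hp
        have hXT := hXj j hj
        rw [← hT] at hXT
        have h13 := transfer hKer ht0.le t C ht0.le T W W hTco hWco hWco hT0 hXT hWC hWC c (by
          intro p hp m hm n hn
          rw [← mul_assoc]
          obtain ⟨b1, b2, b3⟩ := hWm m hm
          obtain ⟨c1, c2, c3⟩ := hWm n hn
          rw [hT] at hp
          obtain ⟨a1, a2, a3, -⟩ := mem_PW.1 hp
          have a2' : ⌊(d : ℝ) ^ α⌋₊ < p :=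
            lt_of_le_of_lt (Nat.floor_le_floor (Real.rpow_le_rpow_of_exponent_le hd1' h7)) a2
          have a3' : (p : ℝ) ≤ (d : ℝ) ^ (1 + 2 * ε0) :=
            ((Nat.le_floor_iff (Real.rpow_nonneg hd0.le _)).1 a3).trans (Real.rpow_le_rpow_of_exponent_le hd1' (by linarith))
          exact hblk p m n a1 b1 c1 a2' b2 c2 a3' b3 c3)
        rw [← hF] at h13
        -- primes outside `M`
        have h14 : ∀ p ∈ T, (if ((ucl d p : (ZMod d)ˣ) : (ZMod d)ˣ ⧸ H) ∉ M then 1 / (p : ℝ) else 0) * (Mx ^ 2 / (3 * (H.index : ℝ))) ≤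
            1 / (p : ℝ) * cv F F (c * (ucl d p)⁻¹) := by
          intro p hp
          have hcv0 : 0 ≤ cv F F (c * (ucl d p)⁻¹) := av_nonneg fun x => mul_nonneg (hF0 x) (hF0 _)
          by_cases hpM : ((ucl d p : (ZMod d)ˣ) : (ZMod d)ˣ ⧸ H) ∉ M
          · rw [if_pos hpM]
            refine mul_le_mul_of_nonneg_left ?_ (by positivity)
            have h15 : ¬ ∀ a ∈ M, ∀ b ∈ M, a * b * ((ucl d p : (ZMod d)ˣ) : (ZMod d)ˣ ⧸ H) ≠ (c : (ZMod d)ˣ ⧸ H) :=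
              fun h => hpM (hM4 _ h)
            push Not at h15
            obtain ⟨a, ha, b, hb, hab⟩ := h15
            refine full F Mx hMx0 hF0 hF1 H a b (c * (ucl d p)⁻¹) ?_ ?_ ?_
            · rw [QuotientGroup.mk_mul, QuotientGroup.mk_inv, ← hab, mul_inv_cancel_right]
            · exact hM6 a ha
            · exact hM6 b hb
          · rw [if_neg hpM, zero_mul]
            exact mul_nonneg (by positivity) hcv0
        have h16 := sum_le_sum h14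
        rw [← sum_mul] at h16
        have h17 : (∑ p ∈ T, if ((ucl d p : (ZMod d)ˣ) : (ZMod d)ˣ ⧸ H) ∉ M then 1 / (p : ℝ) else 0) * (Mx ^ 2 / (3 * (H.index : ℝ))) ≤
            3 * t * C ^ 2 := by
          refine h16.trans (h13.trans ?_)
          have h18 : Wt T * ((2 * t + t) * C ^ 2) ≤ 1 * ((2 * t + t) * C ^ 2) := mul_le_mul_of_nonneg_right hT1 (by positivity)
          linarith
        rw [← le_div_iff₀ (by positivity)] at h17
        rw [hT] at h17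
        refine h17.trans ?_
        have h19 : 3 * t * C ^ 2 / (Mx ^ 2 / (3 * (H.index : ℝ))) = 9 * (H.index : ℝ) * C ^ 2 / Mx ^ 2 * t := by
          field_simp
          ring
        rw [h19]
        gcongr
        linarith)
    rw [hαt, ← sum_filter] at h1
    refine h1.trans ?_
    calc (J : ℝ) * (9 * (N0 + 1 : ℝ) * C ^ 2 / Mx ^ 2 * t) ≤ (J + 1 : ℝ) * (9 * (N0 + 1 : ℝ) * C ^ 2 / Mx ^ 2 * t) :=
          mul_le_mul_of_nonneg_right (by linarith) (by positivity)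
      _ = A2 * t := by
        rw [hA2]
        ring
      _ ≤ κE := htA2
  obtain ⟨q, m1, m2, hq, hm1, hm2, q1, q2, q3, r1, r2, r3, hqc⟩ := hE d (by omega) H M c hH hM1 hM2 hM3 hprimes
  exact hblk q m1 m2 hq hm1 hm2 q1 q2 q3 r1 r2 r3 hqc

end Pool.Agent.Lib.MP_42948a_nt.TP
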