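import Pool.Agent.Lib.MP_42948a_nt.EK.T1
import Pool.Agent.Lib.MP_42948a_nt.FP.Z
import Pool.Agent.Lib.MP_42948a_nt.FP.M5
import Pool.Agent.Lib.MP_42948a_nt.TP.M

/-!
# Exactly `K` primes, `K ≥ 3`: the final combination
-/

namespace Pool.Agent.Lib.MP_42948a_nt.TP

open Pool.Agent.Lib.MP_42948a_nt.OA Pool.Agent.Lib.MP_42948a_nt.TQ Pool.Agent.Lib.MP_42948a_nt.EK

/-- a tiny prime not dividing `d` -/
theorem tiny (α : ℝ) (hα : 0 < α) : ∃ d0 : ℕ, ∀ d : ℕ, d0 ≤ d → ∃ p : ℕ, p.Prime ∧ (d : ℝ) ^ α < p ∧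
    (p : ℝ) ≤ (d : ℝ) ^ (2 * α) ∧ ¬ p ∣ d := by
  obtain ⟨d0, h⟩ := tt_facts α hα
  refine ⟨d0 + 1, fun d hd => ?_⟩
  have : NeZero d := ⟨by omega⟩
  obtain ⟨_, h2, _, h4⟩ := h d (by omega)
  have h5 : ∃ g, tt d α g ≠ 0 := by
    by_contra hcon
    push Not at hcon
    rw [Finset.sum_eq_zero (fun g _ => hcon g)] at h2
    exact zero_ne_one h2
  obtain ⟨g, hg⟩ := h5
  obtain ⟨p, hp, hp1, hp2, hp3, _⟩ := h4 g hg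
  exact ⟨p, hp, hp1, hp2, hp3⟩

/-- `K ≥ 5` primes -/
theorem from_five (K : ℕ) (hK : 5 ≤ K) (ε : ℝ) (hε : 0 < ε) : ∃ c : ℝ, 0 < c ∧ ∃ d₀ : ℕ, ∀ d : ℕ, d₀ ≤ d → ∀ a : ℕ, a.Coprime d →
      ∃ n : ℕ, n ≡ a [MOD d] ∧ ArithmeticFunction.cardFactors n = K ∧
        (∀ p : ℕ, p.Prime → p ∣ n → (d : ℝ) ^ c < p ∧ (p : ℝ) ≤ (d : ℝ) ^ (1 + ε)) ∧ (n : ℝ) ≤ (d : ℝ) ^ (2 + ε) := by
  obtain ⟨δ, hδ, d1, h1⟩ := FP.five (ε / 2) (by positivity)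
  have hK0 : (0 : ℝ) < K := by
    have : 0 < K := by omega
    exact_mod_cast this
  obtain ⟨α, hα⟩ : ∃ α : ℝ, α = min (ε / (4 * K)) (1 / 2) := ⟨_, rfl⟩
  have hα0 : 0 < α := by
    rw [hα]
    exact lt_min (by positivity) (by norm_num)
  have hα1 : α ≤ ε / (4 * K) := by
    rw [hα]
    exact min_le_left _ _
  have hα2 : α ≤ 1 / 2 := by
    rw [hα]
    exact min_le_right _ _
  obtain ⟨d2, h2⟩ := tiny α hα0
  refine ⟨min δ α, lt_min hδ hα0, d1 + d2 + 2, ?_⟩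
  intro d hd a ha
  have : NeZero d := ⟨by omega⟩
  have hd1 : (1 : ℝ) ≤ d := by exact_mod_cast (by omega : 1 ≤ d)
  have hd0 : (0 : ℝ) < d := by linarith
  obtain ⟨p, hp, hp1, hp2, hp3⟩ := h2 d (by omega)
  have hpd : p.Coprime d := (Nat.Prime.coprime_iff_not_dvd hp).mpr hp3
  obtain ⟨u, hu⟩ : ∃ u : (ZMod d)ˣ, u = ZMod.unitOfCoprime p hpd := ⟨_, rfl⟩
  obtain ⟨g, hg⟩ : ∃ g : (ZMod d)ˣ, g = ZMod.unitOfCoprime a ha := ⟨_, rfl⟩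
  obtain ⟨m, hm1, hm2, hm3, hm0, hm4⟩ := h1 d (by omega) (g * (u ^ (K - 5))⁻¹)
  refine ⟨m * p ^ (K - 5), ?_, ?_, ?_, ?_⟩
  · have h3 : ((m * p ^ (K - 5) : ℕ) : ZMod d) = (a : ZMod d) := by
      have h4 : ((g * (u ^ (K - 5))⁻¹ : (ZMod d)ˣ) : ZMod d) * ((u ^ (K - 5) : (ZMod d)ˣ) : ZMod d) = (g : ZMod d) := by
        rw [← Units.val_mul, inv_mul_cancel_right]
      have h5 : ((u ^ (K - 5) : (ZMod d)ˣ) : ZMod d) = (p : ZMod d) ^ (K - 5) := by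
        rw [Units.val_pow_eq_pow_val, hu, ZMod.coe_unitOfCoprime]
      rw [Nat.cast_mul, Nat.cast_pow, hm4, ← h5, h4, hg, ZMod.coe_unitOfCoprime]
    exact (ZMod.natCast_eq_natCast_iff _ _ _).mp h3
  · rw [ArithmeticFunction.cardFactors_mul hm0 (pow_ne_zero _ hp.ne_zero), hm3,
      ArithmeticFunction.cardFactors_apply_prime_pow hp]
    omega
  · intro q hq hqd
    rcases (Nat.Prime.dvd_mul hq).mp hqd with h3 | h3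
    · obtain ⟨h5, h6⟩ := hm2 q hq h3
      exact ⟨(Real.rpow_le_rpow_of_exponent_le hd1 (min_le_left _ _)).trans_lt h5,
        h6.trans (Real.rpow_le_rpow_of_exponent_le hd1 (by linarith))⟩
    · have h4 : q = p := (Nat.prime_dvd_prime_iff_eq hq hp).mp (hq.dvd_of_dvd_pow h3)
      rw [h4]
      exact ⟨(Real.rpow_le_rpow_of_exponent_le hd1 (min_le_right _ _)).trans_lt hp1,
        hp2.trans (Real.rpow_le_rpow_of_exponent_le hd1 (by linarith))⟩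
  · have h3 : ((p : ℝ)) ^ (K - 5) ≤ (d : ℝ) ^ (ε / 2) := by
      have h4 : ((p : ℝ)) ^ (K - 5) ≤ ((d : ℝ) ^ (2 * α)) ^ (K - 5) := pow_le_pow_left₀ (by positivity) hp2 _
      have h5 : ((d : ℝ) ^ (2 * α)) ^ (K - 5) = (d : ℝ) ^ (2 * α * ((K - 5 : ℕ) : ℝ)) := by
        rw [← Real.rpow_natCast, ← Real.rpow_mul hd0.le]
      have h6 : 2 * α * ((K - 5 : ℕ) : ℝ) ≤ ε / 2 := by
        have h7 : ((K - 5 : ℕ) : ℝ) ≤ K := by exact_mod_cast Nat.sub_le K 5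
        have h8 : 2 * α * ((K - 5 : ℕ) : ℝ) ≤ 2 * α * K := mul_le_mul_of_nonneg_left h7 (by positivity)
        have h9 : 2 * α * K ≤ 2 * (ε / (4 * K)) * K :=
          mul_le_mul_of_nonneg_right (by linarith) hK0.le
        have h10 : 2 * (ε / (4 * K)) * K = ε / 2 := by
          field_simp
          ring
        linarith
      exact h4.trans (h5.le.trans (Real.rpow_le_rpow_of_exponent_le hd1 h6))
    push_cast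
    calc (m : ℝ) * (p : ℝ) ^ (K - 5) ≤ (d : ℝ) ^ (2 + ε / 2) * (d : ℝ) ^ (ε / 2) :=
          mul_le_mul hm1 h3 (by positivity) (by positivity)
      _ = (d : ℝ) ^ (2 + ε) := by
        rw [← Real.rpow_add hd0]
        congr 1
        ring

/-- four primes -/
theorem from_four (ε : ℝ) (hε : 0 < ε) : ∃ c : ℝ, 0 < c ∧ ∃ d₀ : ℕ, ∀ d : ℕ, d₀ ≤ d → ∀ a : ℕ, a.Coprime d →
      ∃ n : ℕ, n ≡ a [MOD d] ∧ ArithmeticFunction.cardFactors n = 4 ∧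
        (∀ p : ℕ, p.Prime → p ∣ n → (d : ℝ) ^ c < p ∧ (p : ℝ) ≤ (d : ℝ) ^ (1 + ε)) ∧ (n : ℝ) ≤ (d : ℝ) ^ (9 / 4 + ε) := by
  obtain ⟨δ, hδ, d1, h1⟩ := FP.four ε hε
  refine ⟨δ, hδ, d1, fun d hd a ha => ?_⟩
  obtain ⟨n, h2, h3, h4, -, h5⟩ := h1 d hd (ZMod.unitOfCoprime a ha)
  rw [ZMod.coe_unitOfCoprime] at h5
  exact ⟨n, (ZMod.natCast_eq_natCast_iff _ _ _).mp h5, h4, h3, h2⟩

/-- three primes -/
theorem from_three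
    (three : ∀ ε : ℝ, 0 < ε → ∃ δ : ℝ, 0 < δ ∧ ∃ d0 : ℕ, ∀ d : ℕ, d0 ≤ d →
    ∀ c : (ZMod d)ˣ, ∃ p1 p2 p3 : ℕ, p1.Prime ∧ p2.Prime ∧ p3.Prime ∧ (d : ℝ) ^ δ < p1 ∧ (d : ℝ) ^ δ < p2 ∧ (d : ℝ) ^ δ < p3 ∧
      (p1 : ℝ) ≤ (d : ℝ) ^ (1 + ε) ∧ (p2 : ℝ) ≤ (d : ℝ) ^ (1 + ε) ∧ (p3 : ℝ) ≤ (d : ℝ) ^ (1 + ε) ∧
      ((p1 * p2 * p3 : ℕ) : ZMod d) = (c : ZMod d)) (ε : ℝ) (hε : 0 < ε) :
    ∃ c : ℝ, 0 < c ∧ ∃ d₀ : ℕ, ∀ d : ℕ, d₀ ≤ d → ∀ a : ℕ, a.Coprime d →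
      ∃ n : ℕ, n ≡ a [MOD d] ∧ ArithmeticFunction.cardFactors n = 3 ∧
        (∀ p : ℕ, p.Prime → p ∣ n → (d : ℝ) ^ c < p ∧ (p : ℝ) ≤ (d : ℝ) ^ (1 + ε)) ∧ (n : ℝ) ≤ (d : ℝ) ^ (3 + ε) := by
  obtain ⟨δ, hδ, d1, h1⟩ := three (ε / 3) (by positivity)
  refine ⟨δ, hδ, d1 + 1, fun d hd a ha => ?_⟩
  have hd1 : (1 : ℝ) ≤ d := by exact_mod_cast (by omega : 1 ≤ d)
  have hd0 : (0 : ℝ) < d := by linarith
  obtain ⟨p1, p2, p3, q1, q2, q3, l1, l2, l3, u1, u2, u3, hc⟩ := h1 d (by omega) (ZMod.unitOfCoprime a ha)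
  rw [ZMod.coe_unitOfCoprime] at hc
  have hle : (d : ℝ) ^ (1 + ε / 3) ≤ (d : ℝ) ^ (1 + ε) := Real.rpow_le_rpow_of_exponent_le hd1 (by linarith)
  refine ⟨p1 * p2 * p3, (ZMod.natCast_eq_natCast_iff _ _ _).mp hc, ?_, ?_, ?_⟩
  · rw [ArithmeticFunction.cardFactors_mul (Nat.mul_ne_zero q1.ne_zero q2.ne_zero) q3.ne_zero,
      ArithmeticFunction.cardFactors_mul q1.ne_zero q2.ne_zero, ArithmeticFunction.cardFactors_apply_prime q1,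
      ArithmeticFunction.cardFactors_apply_prime q2, ArithmeticFunction.cardFactors_apply_prime q3]
  · intro p hp hpd
    rcases (Nat.Prime.dvd_mul hp).mp hpd with h | h
    · rcases (Nat.Prime.dvd_mul hp).mp h with h | h
      · rw [(Nat.prime_dvd_prime_iff_eq hp q1).mp h]
        exact ⟨l1, u1.trans hle⟩
      · rw [(Nat.prime_dvd_prime_iff_eq hp q2).mp h]
        exact ⟨l2, u2.trans hle⟩
    · rw [(Nat.prime_dvd_prime_iff_eq hp q3).mp h]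
      exact ⟨l3, u3.trans hle⟩
  · push_cast
    calc (p1 : ℝ) * (p2 : ℝ) * (p3 : ℝ) ≤ (d : ℝ) ^ (1 + ε / 3) * (d : ℝ) ^ (1 + ε / 3) * (d : ℝ) ^ (1 + ε / 3) := by gcongr
      _ = (d : ℝ) ^ (3 + ε) := by
        rw [← Real.rpow_add hd0, ← Real.rpow_add hd0]
        congr 1
        ring

end Pool.Agent.Lib.MP_42948a_nt.TP
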